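import Mathlib
import Pool.Agent.Lib.helper21.Peak
import Pool.Agent.Lib.helper21.Peak2

namespace Pool.Agent.Results.MP_345ce5_an.Half
open Complex Filter Topology Set Metric
open Pool.Agent.Lib.Helper21

/-- The analytic Lipschitz class `A_α`. -/
def InA (α : ℝ) (f : ℂ → ℂ) : Prop :=
  DifferentiableOn ℂ f (ball 0 1) ∧ ContinuousOn f (closedBall 0 1) ∧
    ∃ C : ℝ, ∀ ζ₁ ∈ sphere (0 : ℂ) 1, ∀ ζ₂ ∈ sphere (0 : ℂ) 1,
      ‖f ζ₁ - f ζ₂‖ ≤ C * ‖ζ₁ - ζ₂‖ ^ α

/-- Peak sets for `A_α`. -/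
def IsPeak (α : ℝ) (E : Set ℂ) : Prop :=
  IsClosed E ∧ E ⊆ sphere 0 1 ∧ ∃ f : ℂ → ℂ, InA α f ∧ (∀ ζ ∈ E, f ζ = 1) ∧
    ∀ ζ ∈ sphere (0 : ℂ) 1 \ E, ‖f ζ‖ < 1

/-- The Gevrey class `G_α`. -/
def InG (α : ℝ) (f : ℂ → ℂ) : Prop :=
  DifferentiableOn ℂ f (ball 0 1) ∧ ∃ C : ℝ, ∀ n : ℕ, ∀ z ∈ ball (0 : ℂ) 1,
    ‖iteratedDeriv n f z‖ ≤ C ^ (n + 1) * (n.factorial : ℝ) ^ (1 + 1 / α)

/-- Zero sets for `G_α`. -/
def IsZeroSet (α : ℝ) (E : Set ℂ) : Prop :=
  E ⊆ sphere 0 1 ∧ ∃ f : ℂ → ℂ, InG α f ∧ (∃ z ∈ ball (0 : ℂ) 1, f z ≠ 0) ∧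
    ∀ n : ℕ, ∀ ζ ∈ E, Tendsto (iteratedDeriv n f) (𝓝[ball 0 1] ζ) (𝓝 0)

noncomputable def M : ℝ := 32 * (∑' m : ℕ, 1 / (m * Peak2.L m ^ 2)) + 9

noncomputable def t (k : ℕ) : ℝ := M * ((k + 1 : ℕ) * Peak2.L (k + 1) ^ 2)

lemma S0 : 0 ≤ ∑' m : ℕ, 1 / (m * Peak2.L m ^ 2) :=
  tsum_nonneg fun m => by have := Peak2.L1 m; positivity

lemma M9 : 9 ≤ M := by unfold M; linarith [S0]

lemma gap {k n : ℕ} (h : n ≤ k) : M * ((k - n : ℕ) * Peak2.L (k + 1) ^ 2) ≤ t k - t n := by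
  have h1 := Peak2.Lm (show n + 1 ≤ k + 1 by omega)
  have h2 := Peak2.L1 (n + 1)
  have h3 : Peak2.L (n + 1) ^ 2 ≤ Peak2.L (k + 1) ^ 2 := by gcongr
  unfold t
  rw [← mul_sub]
  refine mul_le_mul_of_nonneg_left ?_ (by linarith [M9])
  push_cast [h]
  have : (0 : ℝ) ≤ n := Nat.cast_nonneg n
  nlinarith

lemma gap2 {k n : ℕ} (h : n < k) : 9 ≤ |t k - t n| ∧
    1 / |t k - t n| ≤ 1 / M * (1 / ((k - n : ℕ) * Peak2.L (k - n) ^ 2)) := by
  have h1 := gap h.le
  have h2 := Peak2.Lm (show k - n ≤ k + 1 by omega)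
  have h3 := Peak2.L1 (k - n)
  have h4 : (1 : ℝ) ≤ (k - n : ℕ) := by exact_mod_cast (show 1 ≤ k - n by omega)
  have h5 := M9
  have h6 : M * ((k - n : ℕ) * Peak2.L (k - n) ^ 2) ≤ |t k - t n| :=
    le_trans (by gcongr) (h1.trans (le_abs_self _))
  have h7 : 1 ≤ ((k - n : ℕ) : ℝ) * Peak2.L (k - n) ^ 2 := by nlinarith
  refine ⟨by nlinarith, ?_⟩
  rw [one_div_mul_one_div]
  gcongr

lemma t9 (k : ℕ) : 9 ≤ t k := by
  have h1 := Peak2.L1 (k + 1)
  have h2 : (1 : ℝ) ≤ (k + 1 : ℕ) := by exact_mod_cast (show 1 ≤ k + 1 by omega)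
  have h7 : 1 ≤ ((k + 1 : ℕ) : ℝ) * Peak2.L (k + 1) ^ 2 := by nlinarith
  unfold t; nlinarith [M9]

lemma seq : Peak.Seq t := by
  have h5 := M9
  set φ : ℕ → ℝ := fun m => 1 / (m * Peak2.L m ^ 2) with hφ
  have p0 : ∀ m, 0 ≤ φ m := fun m => by have := Peak2.L1 m; simp only [hφ]; positivity
  have pz : φ 0 = 0 := by simp [hφ]
  have key : ∀ n N, ∑ k ∈ Finset.range N, 1 / |t k - t n| ≤ 1 / 16 := by
    intro n N
    have h1 : ∀ k, 1 / |t k - t n| ≤ 1 / M * (φ (k - n) + φ (n - k)) := by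
      intro k
      have := p0 (k - n); have := p0 (n - k)
      rcases lt_trichotomy k n with h | h | h
      · rw [abs_sub_comm]
        refine (gap2 h).2.trans (mul_le_mul_of_nonneg_left ?_ (by positivity))
        change φ (n - k) ≤ _
        linarith
      · rw [h, sub_self, abs_zero, div_zero]; rw [h] at this; positivity
      · refine (gap2 h).2.trans (mul_le_mul_of_nonneg_left ?_ (by positivity))
        change φ (k - n) ≤ _
        linarith
    refine (Finset.sum_le_sum fun k _ => h1 k).trans ?_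
    rw [← Finset.mul_sum, Finset.sum_add_distrib]
    have a1 := Peak2.inj p0 pz Peak2.sumL (e := fun k => k - n) (fun k k' h h' => by omega)
      (Finset.range N)
    have a2 := Peak2.inj p0 pz Peak2.sumL (e := fun k => n - k) (fun k k' h h' => by omega)
      (Finset.range N)
    have a3 : M = 32 * (∑' m, φ m) + 9 := rfl
    rw [one_div_mul_eq_div, div_le_iff₀ (by linarith)]
    linarith
  refine ⟨t9, ?_, fun k n h => ?_, fun n => ?_, fun n => ?_⟩
  · refine (((summable_nat_add_iff 1).2 Peak2.sumL).mul_left (1 / M)).congr fun k => ?_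
    unfold t; rw [one_div_mul_one_div]
  · rcases lt_or_gt_of_ne h with h | h
    · rw [abs_sub_comm]; linarith [(gap2 h).1]
    · linarith [(gap2 h).1]
  · exact summable_of_sum_range_le (fun k => by positivity) (key n)
  · exact Real.tsum_le_of_sum_range_le (fun k => by positivity) (key n)

noncomputable def s (k : ℕ) : ℝ := 1 / (2 * √M) * (1 / ((k + 1 : ℕ) * Peak2.L (k + 1)))

lemma s0 (k : ℕ) : 0 < s k := by
  have := M9; have := Peak2.L1 (k + 1); unfold s; positivity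

lemma s2 (k : ℕ) : s k ^ 2 = 1 / (4 * M * ((k + 1 : ℕ) * Peak2.L (k + 1)) ^ 2) := by
  have := M9; have := Peak2.L1 (k + 1); unfold s
  rw [one_div_mul_one_div, div_pow, mul_pow, mul_pow, Real.sq_sqrt (by linarith)]; norm_num

lemma s1 (k : ℕ) : s k ≤ 1 := by
  have h0 := M9
  have h1 := Peak2.L1 (k + 1)
  have h2 : (1 : ℝ) ≤ (k + 1 : ℕ) := by exact_mod_cast (show 1 ≤ k + 1 by omega)
  have h7 : 1 ≤ ((k + 1 : ℕ) : ℝ) * Peak2.L (k + 1) := by nlinarith
  refine (abs_le_of_sq_le_sq' ?_ zero_le_one).2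
  rw [s2, one_pow, div_le_one (by positivity)]
  nlinarith

lemma ptd {x y : ℝ} (hx : 1 ≤ x) (hy : 1 ≤ y) : |x - y| / (2 * (x * y)) ≤ ‖Peak.pt x - Peak.pt y‖ := by
  have h1 := Peak.den x
  have h2 := Peak.den y
  have e : Peak.pt x - Peak.pt y = 2 * I * ((x - y : ℝ) : ℂ) / ((I * x + 1) * (I * y + 1)) := by
    unfold Peak.pt; push_cast; field_simp; ring
  have b : ∀ x : ℝ, 1 ≤ x → ‖(I * x + 1 : ℂ)‖ ≤ 2 * x := by
    intro x hx
    have := norm_add_le (I * x : ℂ) 1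
    rw [norm_mul, norm_I, norm_one, norm_real, Real.norm_of_nonneg (by linarith)] at this
    linarith
  have p1 := norm_pos_iff.2 h1
  have p2 := norm_pos_iff.2 h2
  rw [e, norm_div, norm_mul, norm_mul, norm_mul, norm_I, norm_real, Real.norm_eq_abs, norm_ofNat,
    show |x - y| / (2 * (x * y)) = 2 * 1 * |x - y| / ((2 * x) * (2 * y)) by field_simp]
  gcongr
  exacts [b x hx, b y hy]

lemma sep {k m : ℕ} (h : k < m) :
    s k ^ 2 ≤ ‖Peak.pt (t k) - Peak.pt (t m)‖ ∧ s m ^ 2 ≤ s k ^ 2 := by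
  have h0 := M9
  have h1 := Peak2.L1 (k + 1)
  have h2 := Peak2.Lm (show k + 1 ≤ m + 1 by omega)
  have h3 : (k : ℝ) + 1 ≤ m := by exact_mod_cast h
  have h4 : (0 : ℝ) ≤ k := Nat.cast_nonneg k
  constructor
  · refine le_trans ?_ (ptd (by linarith [t9 k]) (by linarith [t9 m]))
    have h5 := (gap h.le).trans (le_abs_self _)
    rw [abs_sub_comm] at h5
    have := t9 k; have := t9 m
    refine le_trans ?_ (div_le_div_of_nonneg_right h5 (by positivity))
    rw [s2]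
    unfold t
    push_cast [h.le]
    have h6 : 0 < Peak2.L (m + 1) := by linarith
    rw [div_le_div_iff₀ (by positivity) (by positivity)]
    have h7 : (m : ℝ) + 1 ≤ 2 * ((m - k) * (k + 1)) := by nlinarith
    calc _ = (2 * M ^ 2 * (k + 1) * Peak2.L (k + 1) ^ 2 * Peak2.L (m + 1) ^ 2) * (m + 1) := by ring
      _ ≤ (2 * M ^ 2 * (k + 1) * Peak2.L (k + 1) ^ 2 * Peak2.L (m + 1) ^ 2)
          * (2 * ((m - k) * (k + 1))) := by gcongr
      _ = _ := by ring
  · rw [s2, s2]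
    push_cast
    gcongr

theorem result : ∃ E : Set ℂ, IsPeak (1 / 2) E ∧ ¬ IsZeroSet (1 / 2) E := by
  have H := seq
  have hlip : ∀ z z' : ℂ, ‖z‖ ≤ 1 → ‖z'‖ ≤ 1 →
      ‖(1 - Peak.F t z) - (1 - Peak.F t z')‖ ≤ (6 * 1296 ^ 2) * ‖z - z'‖ ^ (1 / 2 : ℝ) := by
    intro z z' hz hz'
    rw [← Real.sqrt_eq_rpow, sub_sub_sub_cancel_left, norm_sub_rev]
    refine (abs_le_of_sq_le_sq' ?_ (by positivity)).2
    rw [mul_pow, Real.sq_sqrt (norm_nonneg _)]
    exact H.Flip hz hz'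
  refine ⟨insert 1 (range fun k => Peak.pt (t k)), ⟨?_, ?_, fun z => 1 - Peak.F t z,
    ⟨(differentiableOn_const 1).sub H.Fdiff, ?_, 6 * 1296 ^ 2, fun a ha b hb => ?_⟩, ?_, ?_⟩, ?_⟩
  · refine (Tendsto.isCompact_insert_range ?_).isClosed
    rw [tendsto_iff_norm_sub_tendsto_zero]
    refine squeeze_zero (fun _ => norm_nonneg _) (fun k => ?_)
      (by simpa using H.sum.tendsto_atTop_zero.const_mul 2)
    have h1 := Peak.den (t k)
    have e : Peak.pt (t k) - 1 = -2 / (I * t k + 1) := by unfold Peak.pt; field_simp; ring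
    have h2 := Complex.im_le_norm (I * t k + 1)
    have h3 := t9 k
    simp only [add_im, mul_im, I_re, ofReal_im, mul_zero, I_im, ofReal_re, one_mul, zero_add,
      one_im, add_zero] at h2
    rw [e, norm_div, norm_neg, norm_ofNat, ← div_eq_mul_inv]
    gcongr
  · rintro z (rfl | ⟨k, rfl⟩)
    · simp
    · simpa using Peak.ptn _
  · intro z hz
    rw [ContinuousWithinAt, tendsto_iff_norm_sub_tendsto_zero]
    have hc : Continuous fun w : ℂ => (6 * 1296 ^ 2) * ‖w - z‖ ^ (1 / 2 : ℝ) := by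
      simp only [← Real.sqrt_eq_rpow]; fun_prop
    refine squeeze_zero' (Eventually.of_forall fun _ => norm_nonneg _) ?_
      ((hc.tendsto' z 0 (by simp)).mono_left nhdsWithin_le_nhds)
    filter_upwards [self_mem_nhdsWithin] with w hw
    exact hlip w z (by simpa using hw) (by simpa using hz)
  · exact hlip a b (le_of_eq (by simpa using ha)) (le_of_eq (by simpa using hb))
  · rintro z (rfl | ⟨k, rfl⟩)
    · simp [Peak.F]
    · simp [Peak.Fpt]
  · rintro z ⟨hz, hz'⟩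
    refine H.Flt (le_of_eq (by simpa using hz)) (fun h => hz' (Or.inl h))
      fun k h => hz' (Or.inr ⟨k, h.symm⟩)
  · rintro ⟨-, f, ⟨hf, C, hC⟩, ⟨z₀, hz₀, hne⟩, h0⟩
    set C' := max |C| 1 with hC'
    have c1 : 1 ≤ C' := le_max_right _ _
    have hb : ∀ n : ℕ, ∀ z ∈ ball (0 : ℂ) 1,
        ‖iteratedDeriv n f z‖ ≤ C' ^ (n + 1) * (n.factorial : ℝ) ^ 3 := by
      intro n z hz
      refine (hC n z hz).trans ?_
      rw [show (1 + 1 / (1 / 2) : ℝ) = (3 : ℕ) by norm_num, Real.rpow_natCast]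
      refine mul_le_mul_of_nonneg_right ((le_abs_self _).trans ?_) (by positivity)
      rw [abs_pow]
      exact pow_le_pow_left₀ (abs_nonneg _) (le_max_left _ _) _
    have hcm : ∀ k, circleMap 0 1 (arg (Peak.pt (t k))) = Peak.pt (t k) := by
      intro k
      have := Complex.norm_mul_exp_arg_mul_I (Peak.pt (t k))
      rw [Peak.ptn] at this
      simpa [circleMap] using this
    have hch : ∀ k m, ‖Peak.pt (t k) - Peak.pt (t m)‖
        ≤ |arg (Peak.pt (t k)) - arg (Peak.pt (t m))| := by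
      intro k m
      have a2 := (lipschitzWith_circleMap 0 1).dist_le_mul (arg (Peak.pt (t k)))
        (arg (Peak.pt (t m)))
      rw [dist_eq_norm, Real.dist_eq, hcm, hcm] at a2
      simpa using a2
    refine hne (Peak2.uniq (θ := fun k => arg (Peak.pt (t k))) (s := s) s0 s1 (fun k => ?_)
      (fun k => arg_le_pi _) (fun k m hkm => ?_) ?_ hf (B := Real.log C' + 1) (c := 1 / (4 * C'))
      (by positivity) (fun z hz h => ?_) (fun k z hz h hd => ?_) hz₀)
    · rw [arg_nonneg_iff]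
      unfold Peak.pt
      rw [Complex.div_im]
      have := t9 k
      have h2 := normSq_nonneg (I * t k + 1)
      simp only [sub_im, mul_im, I_re, ofReal_im, mul_zero, I_im, ofReal_re, one_mul, zero_add,
        one_im, sub_zero, add_re, mul_re, zero_mul, sub_self, one_re, mul_one, sub_re, zero_sub,
        add_im, add_zero]
      rw [← sub_div]
      apply div_nonneg _ h2; linarith
    · rcases lt_or_gt_of_ne hkm with h | h
      · exact (sep h).1.trans (hch k m)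
      · rw [abs_sub_comm]; exact (sep h).2.trans ((sep h).1.trans (hch m k))
    · intro hs
      have := M9
      refine Peak2.nsumL ((summable_nat_add_iff 1).1 ((hs.mul_left (2 * √M)).congr fun k => ?_))
      unfold s
      rw [← mul_assoc, mul_one_div_cancel (by positivity), one_mul]
    · have := hb 0 z hz
      simp only [iteratedDeriv_zero, zero_add, pow_one, Nat.factorial_zero, Nat.cast_one, one_pow,
        mul_one] at this
      linarith [Real.log_le_log (norm_pos_iff.2 h) this]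
    · rw [hcm] at hd
      have := Peak2.decay (Peak.ptn _) hf c1 hb (fun j => h0 j _ (Or.inr ⟨k, rfl⟩)) (s0 k) hz hd
      have h2 := Real.log_le_log (norm_pos_iff.2 h) this
      rw [Real.log_mul (by positivity) (by positivity), Real.log_exp] at h2
      rw [div_div]; linarith

end Pool.Agent.Results.MP_345ce5_an.Half
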